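import Pool.Agent.Helper11K9.PC.Main

/-!
Uniruledness from the vanishing of the traces to a field which contains all factors but one.
-/

set_option autoImplicit false
set_option linter.overlappingInstances false
set_option linter.unusedSectionVars false

open FF

namespace Pool.Agent.Helper11K9.MT

open Pool.Agent.W603.LV Pool.Agent.W602.RG
open Pool.Agent.W602.GT (Divisorial RegAt IsPluri KodGe)
open Pool.Agent.W619.PQ (extForm IsUniruled)
open Pool.Agent.R882.Over (GenusZero)
open Pool.Agent.Helper11K9.PC

theorem uni_of_line {K : Type} [Field K] [Algebra ℂ K] {n : ℕ} (F : Fin n → IntermediateField ℂ K)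
    [∀ i, IsFF ℂ (F i)] (hsup : ⨆ i, F i = ⊤) (hn : Algebra.trdeg ℂ K = n)
    (L : IntermediateField ℂ K) [FiniteDimensional L K] {D : ∀ i, Derivation ℂ (F i) (F i)}
    (hD : ∀ i, D i ≠ 0) {x : ∀ i, F i} (hx : ∀ i, Transcendental ℂ (x i)) {z : Fin n → L}
    {E : Fin n → Derivation ℂ L L} (hz : IsTranscendenceBasis ℂ z)
    (hE : ∀ i j, E i (z j) = if i = j then 1 else 0) {E' : Fin n → Derivation ℂ K K}
    (hE' : ∀ i f, E' i (algebraMap L K f) = algebraMap L K (E i f)) {J : K}
    (hJ : J = extForm 1 D x (fun _ => 1) E') (i : Fin n) (E2 : IntermediateField ℂ K)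
    (hLE : L ≤ E2) (hfinE : FiniteDimensional E2 K) (hFE : ∀ j, j ≠ i → F j ≤ E2)
    {c : ∀ j, F j} (hc : ∀ j, j ≠ i → RegD (D j) (c j)) (hT2 : TrZ F D J {i} E2) :
    IsUniruled ℂ L n := by
  classical
  have hK0 : CharZero K := charZero_of_injective_algebraMap (algebraMap ℂ K).injective
  have hessK : Algebra.EssFiniteType ℂ K := ess_top F hsup
  have hessL : Algebra.EssFiniteType ℂ L := Pool.Agent.TH466.QG.ess_below (K := K)
  have hL : Algebra.trdeg ℂ L = n := Pool.Agent.Y184.NT.trdeg_below (K := K) hn
  have hzK : IsTranscendenceBasis ℂ (fun j => algebraMap L K (z j)) := hz.algebraMap_comp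
  have hE'd := Pool.Agent.Y172.lift_dual hE hE'
  obtain ⟨m, rfl⟩ : ∃ m, n = m + 1 := ⟨n - 1, by have := i.pos; omega⟩
  have hle : Bf F i ≤ E2 := Bf_le F fun j hj => hFE j hj
  have hBtr : Algebra.trdeg ℂ (Bf F i) = (m : ℕ) := by
    have h1 := trdeg_Bf F hsup hn i
    have h2 : Algebra.trdeg ℂ (Bf F i) + 1 = (m : Cardinal) + 1 := by
      rw [h1]
      push_cast
      rfl
    exact (Cardinal.add_nat_inj 1).1 (by exact_mod_cast h2)
  have hVfin : Module.Finite ℂ (RR (D i) (hD i)) := finDim_LL _
  let b := Module.finBasis ℂ (RR (D i) (hD i))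
  have hbreg : ∀ j, RegD (D i) (b j : F i) := by
    intro j
    have h1 : (b j : F i) ≠ 0 := fun h => b.ne_zero j (Subtype.ext h)
    exact ⟨h1, (mem_RR.1 (b j).2).resolve_left h1⟩
  have hupd : ∀ j l, RegD (D l) (Function.update c i (b j : F i) l) := by
    intro j l
    by_cases hl : l = i
    · subst hl
      rw [Function.update_self]
      exact hbreg j
    · rw [Function.update_of_ne hl]
      exact hc l hl
  have hmemE : ∀ w ∈ E2, w ∈ (IntermediateField.extendScalars hle).restrictScalars ℂ := by
    intro w hw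
    exact hw
  have hfinE' : FiniteDimensional (IntermediateField.extendScalars hle) K := hfinE
  have huni := Pool.Agent.R882.GL.dich (n := m) hn (Bf F i) hBtr
    (fun w hw => Bf_closed F hsup hn i hw) (IntermediateField.extendScalars hle)
    (fun j => extForm 1 D x (Function.update c i (b j : F i)))
    (fun j => Pool.Agent.W619.PQ.extForm_pluri 1 D x _)
    (fun j P hP => ext_reg hD hx (hupd j) P hP)
    (span_fib hsup hn hD hx i c (fun j hj => (hc j hj).1) (fun j => (b j : F i)) (fun l hl => by
      have h1 : l ∈ RR (D i) (hD i) := mem_RR.2 hl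
      have h2 := congrArg (RR (D i) (hD i)).subtype (b.sum_repr ⟨l, h1⟩)
      rw [map_sum] at h2
      simp only [map_smul, Submodule.subtype_apply] at h2
      rw [← h2]
      exact Submodule.sum_mem _ fun j _ =>
        Submodule.smul_mem _ _ (Submodule.subset_span ⟨j, rfl⟩)))
    (by
      rw [IntermediateField.extendScalars_restrictScalars]
      rintro j ⟨D0, D1, hD1, hne⟩
      apply hne
      have h1 := Pool.Agent.Y172.pluri_coord hzK hE'd (m := 1)
        (ω := extForm 1 D x (Function.update c i (b j : F i)))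
        (Pool.Agent.W619.PQ.extForm_pluri 1 D x _) D1
      obtain ⟨δ, hδ⟩ : ∃ δ : E2, δ = (Matrix.of fun a l => D0 a ⟨algebraMap L K (z l), hLE (z l).2⟩ :
        Matrix (Fin (m + 1)) (Fin (m + 1)) E2).det := ⟨_, rfl⟩
      obtain ⟨ε, hε⟩ : ∃ ε : E2, (ε : K) = ∏ l ∈ Finset.univ.erase i, (c l : K) :=
        ⟨⟨∏ l ∈ Finset.univ.erase i, (c l : K), prod_mem fun l hl =>
          (hFE l (Finset.ne_of_mem_erase hl)) (c l).2⟩, rfl⟩
      have h2 : extForm 1 D x (Function.update c i (b j : F i)) D1 =
          (δ * ε) • (J * ((b j : F i) : K)) := by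
        rw [h1, pow_one, ext_val, ← hJ, ← Finset.mul_prod_erase _ _ (Finset.mem_univ i),
          Function.update_self, Algebra.smul_def, map_mul]
        have h3 : ∏ l ∈ Finset.univ.erase i,
            ((Function.update c i (b j : F i) l : F l) : K) =
            ∏ l ∈ Finset.univ.erase i, (c l : K) :=
          Finset.prod_congr rfl fun l hl => by
            rw [Function.update_of_ne (Finset.ne_of_mem_erase hl)]
        have h4 : algebraMap E2 K ε = ∏ l ∈ Finset.univ.erase i, (c l : K) := hε
        have h5 : algebraMap E2 K δ =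
            (Matrix.of fun a l => D1 a (algebraMap L K (z l))).det := by
          rw [hδ, RingHom.map_det]
          congr 1
          ext a l
          rw [RingHom.mapMatrix_apply, Matrix.map_apply, Matrix.of_apply, Matrix.of_apply]
          exact (hD1 a ⟨algebraMap L K (z l), hLE (z l).2⟩).symm
        rw [h3, h4, h5]
        ring
      rw [h2, map_smul]
      have h3 := hT2 (Function.update c i (b j : F i)) (fun l _ => hupd j l)
      rw [Finset.prod_singleton, Function.update_self] at h3
      rw [h3, smul_zero])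
  obtain ⟨M, i1, i2, hM, htr, ⟨ψ⟩⟩ := huni
  let φ : L →ₐ[ℂ] (IntermediateField.extendScalars hle).restrictScalars ℂ :=
    { toFun := fun f => ⟨(f : K), hmemE _ (hLE f.2)⟩
      map_one' := Subtype.ext rfl
      map_mul' := fun f g => Subtype.ext rfl
      map_zero' := Subtype.ext rfl
      map_add' := fun f g => Subtype.ext rfl
      commutes' := fun c => Subtype.ext rfl }
  exact ⟨M, i1, i2, hM, htr, ⟨ψ.comp φ⟩⟩

end Pool.Agent.Helper11K9.MT
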