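import Mathlib

/-!
Algebraically independent elements among generators.
-/

set_option autoImplicit false
set_option linter.overlappingInstances false
set_option linter.unusedSectionVars false

namespace Pool.Agent.Helper11K9.MT

open scoped IntermediateField.algebraAdjoinAdjoin in
/-- If `h` algebraically independent elements are algebraic over the field generated by `S`, then
`S` has `h` algebraically independent elements. -/
theorem exists_ind {L K : Type} [Field L] [Algebra ℂ L] [Field K] [Algebra ℂ K] [Algebra L K]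
    [IsScalarTower ℂ L K] {S : Set L} {h : ℕ} {x : Fin h → K} (hx : AlgebraicIndependent ℂ x)
    (hxa : ∀ i, IsAlgebraic (IntermediateField.adjoin ℂ S) (x i)) :
    ∃ y : Fin h → L, (∀ i, y i ∈ S) ∧ AlgebraicIndependent ℂ y := by
  classical
  obtain ⟨N, hN⟩ : ∃ N, N = IntermediateField.adjoin ℂ S := ⟨_, rfl⟩
  rw [← hN] at hxa
  let S' : Set N := {a | (a : L) ∈ S}
  have hSN : ∀ s ∈ S, s ∈ N := fun s hs => by
    rw [hN]
    exact IntermediateField.subset_adjoin _ _ hs
  have htop : IntermediateField.adjoin ℂ S' = ⊤ := by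
    apply IntermediateField.map_injective N.val
    rw [IntermediateField.adjoin_map, ← AlgHom.fieldRange_eq_map, IntermediateField.fieldRange_val]
    refine Eq.trans ?_ hN.symm
    congr 1
    ext s
    constructor
    · rintro ⟨a, ha, rfl⟩
      exact ha
    · intro hs
      exact ⟨⟨s, hSN s hs⟩, hs, rfl⟩
  have h2 : Algebra.IsAlgebraic (IntermediateField.adjoin ℂ S') N := by
    constructor
    intro z
    have hz : z ∈ IntermediateField.adjoin ℂ S' := by
      rw [htop]
      trivial
    exact isAlgebraic_algebraMap (A := N) (⟨z, hz⟩ : IntermediateField.adjoin ℂ S')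
  have h3 : Algebra.IsAlgebraic (Algebra.adjoin ℂ S') N :=
    (IsFractionRing.comap_isAlgebraic_iff (A := Algebra.adjoin ℂ S')
      (K := IntermediateField.adjoin ℂ S') (C := N)).2 h2
  obtain ⟨t, ht, hb⟩ := exists_isTranscendenceBasis_subset (R := ℂ) S'
  -- the algebraic closure of `N` in `K`
  obtain ⟨A, hA⟩ : ∃ A, A = algebraicClosure N K := ⟨_, rfl⟩
  have hAalg : Algebra.IsAlgebraic N A := by
    rw [hA]
    infer_instance
  have hAx : ∀ i, x i ∈ A := fun i => by
    rw [hA, mem_algebraicClosure_iff]
    exact hxa i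
  have hbA : IsTranscendenceBasis ℂ (algebraMap N A ∘ ((↑) : t → N)) := hb.algebraMap_comp
  let xA : Fin h → A := fun i => ⟨x i, hAx i⟩
  have hxA : AlgebraicIndependent ℂ xA :=
    AlgebraicIndependent.of_comp (A.val.restrictScalars ℂ) hx
  have h4 := hxA.cardinalMk_le_trdeg
  rw [← hbA.cardinalMk_eq_trdeg] at h4
  obtain ⟨e⟩ : Nonempty (Fin h ↪ t) := (Cardinal.le_def _ _).1 h4
  refine ⟨fun i => ((e i : N) : L), fun i => ht (e i).2, ?_⟩
  have h5 : AlgebraicIndependent ℂ (fun i => (e i : N)) := hb.1.comp e e.injective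
  exact h5.map' (f := N.val) Subtype.val_injective

end Pool.Agent.Helper11K9.MT
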