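import Mathlib

/-!
A second embedding of a field extension, independent of the first one over the base field.
-/

set_option autoImplicit false
set_option linter.overlappingInstances false
set_option linter.unusedSectionVars false

namespace Pool.Agent.Helper11K9.MT

/-- an algebraically closed field with independent elements -/
theorem exists_big (M ι : Type) [Field M] : ∃ (Ω : Type) (_ : Field Ω) (_ : Algebra M Ω)
    (_ : IsAlgClosed Ω) (z : ι → Ω), AlgebraicIndependent M z := by
  have h0 : AlgebraicIndependent M (fun i : ι => algebraMap (MvPolynomial ι M)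
      (FractionRing (MvPolynomial ι M)) (MvPolynomial.X i)) :=
    (MvPolynomial.algebraicIndependent_X ι M).map'
      (f := IsScalarTower.toAlgHom M (MvPolynomial ι M) (FractionRing (MvPolynomial ι M)))
      (IsFractionRing.injective _ _)
  exact ⟨AlgebraicClosure (FractionRing (MvPolynomial ι M)), inferInstance, inferInstance,
    inferInstance, _, h0.map' (f := IsScalarTower.toAlgHom M (FractionRing (MvPolynomial ι M))
      (AlgebraicClosure (FractionRing (MvPolynomial ι M)))) (RingHom.injective _)⟩

/-- extension of embeddings -/
theorem exists_lift {R S Ω : Type} [CommRing R] [IsDomain R] [Field S] [Field Ω] [IsAlgClosed Ω]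
    [Algebra R S] [Algebra.IsAlgebraic R S] (hS : Function.Injective (algebraMap R S))
    (g : R →+* Ω) (hg : Function.Injective g) :
    ∃ τ : S →+* Ω, ∀ a, τ (algebraMap R S a) = g a := by
  let : Algebra R Ω := g.toAlgebra
  have h1 : FaithfulSMul R Ω := (faithfulSMul_iff_algebraMap_injective _ _).2 hg
  have h2 : FaithfulSMul R S := (faithfulSMul_iff_algebraMap_injective _ _).2 hS
  have h3 : Module.IsTorsionFree R Ω := inferInstance
  have h4 : Module.IsTorsionFree R S := inferInstance
  let τ : S →ₐ[R] Ω := IsAlgClosed.lift
  exact ⟨τ.toRingHom, fun a => τ.commutes a⟩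

/-- **Two independent embeddings.** -/
theorem exists_tau (N M : Type) [Field N] [Field M] [Algebra N M] :
    ∃ (Ω : Type) (_ : Field Ω) (_ : Algebra M Ω) (τ : M →+* Ω),
      (∀ a : N, τ (algebraMap N M a) = algebraMap M Ω (algebraMap N M a)) ∧
      ∀ u u' : M, τ u = algebraMap M Ω u' → IsAlgebraic N u' := by
  classical
  obtain ⟨ι, y, hy⟩ := exists_isTranscendenceBasis' N M
  obtain ⟨Ω, i1, i2, i3, z, hzi⟩ := exists_big M ι
  let : Algebra N Ω := ((algebraMap M Ω).comp (algebraMap N M)).toAlgebra
  have : IsScalarTower N M Ω := IsScalarTower.of_algebraMap_eq fun _ => rfl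
  have hzN : AlgebraicIndependent N z := hzi.restrictScalars (algebraMap N M).injective
  let e : Algebra.adjoin N (Set.range y) ≃ₐ[N] Algebra.adjoin N (Set.range z) :=
    hy.1.aevalEquiv.symm.trans hzN.aevalEquiv
  let g : Algebra.adjoin N (Set.range y) →+* Ω :=
    (Algebra.adjoin N (Set.range z)).val.toRingHom.comp e.toRingEquiv.toRingHom
  have hg : Function.Injective g := by
    intro a b hab
    exact e.injective (Subtype.ext hab)
  have halg : Algebra.IsAlgebraic (Algebra.adjoin N (Set.range y)) M := hy.isAlgebraic
  obtain ⟨τ, hτ⟩ := exists_lift (S := M) (Subtype.val_injective) g hg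
  refine ⟨Ω, i1, i2, τ, fun a => ?_, fun u u' hu => ?_⟩
  · have h1 := hτ (algebraMap N _ a)
    have h2 : algebraMap (Algebra.adjoin N (Set.range y)) M (algebraMap N _ a) =
      algebraMap N M a := rfl
    rw [h2] at h1
    rw [h1]
    change ((e (algebraMap N _ a) : Algebra.adjoin N (Set.range z)) : Ω) = _
    rw [AlgEquiv.commutes]
    rfl
  · by_contra hcon
    -- the element and the new coordinates are independent
    have h1 : AlgebraicIndependent N (Sum.elim z (fun _ : Unit => algebraMap M Ω u')) := by
      have h2 : AlgebraicIndependent N (fun _ : Unit => algebraMap M Ω u') := by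
        rw [algebraicIndependent_unique_type_iff]
        have h3 : Transcendental N u' := hcon
        exact (transcendental_algebraMap_iff (algebraMap M Ω).injective).2 h3
      exact AlgebraicIndependent.sumElim_of_tower (S := M) h2 (by
        rintro _ ⟨_, rfl⟩
        exact ⟨u', rfl⟩) hzi
    have h2 : Transcendental (Algebra.adjoin N (Set.range z)) (algebraMap M Ω u') := by
      rw [← AlgebraicIndependent.option_iff_transcendental hzN]
      have h3 := h1.comp (fun o : Option ι => o.elim (Sum.inr ()) Sum.inl) (by
        rintro (_ | a) (_ | b) hab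
        · rfl
        · simp at hab
        · simp at hab
        · simpa using hab)
      convert h3 using 1
      funext o
      cases o <;> rfl
    apply h2
    rw [← hu]
    have h3 : IsAlgebraic (Algebra.adjoin N (Set.range y)) u := halg.isAlgebraic u
    exact h3.ringHom_of_comp_eq e τ e.injective (by
      ext a
      change ((e a : Algebra.adjoin N (Set.range z)) : Ω) = τ (algebraMap _ M a)
      rw [hτ]
      rfl)

end Pool.Agent.Helper11K9.MT
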