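import Pool.Agent.Helper11K9.MT.Lines
import Pool.Agent.Helper11K9.MT.Tau

/-!
The relation between the embeddings over a field and their conjugates over the field generated by
the ratios of the traces.
-/

set_option autoImplicit false
set_option linter.overlappingInstances false
set_option linter.unusedSectionVars false

open Polynomial FF IntermediateField

namespace Pool.Agent.Helper11K9.MT

open Pool.Agent.W603.LV Pool.Agent.W619.PQ Pool.Agent.Helper11K9.PC

section

variable {k K Ω : Type} [Field k] [Field K] [Algebra k K] [CharZero k] [IsAlgClosed k]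
  [Field Ω] [Algebra k Ω] {n : ℕ}
  {F : Fin n → IntermediateField k K} [∀ i, IsFF k (F i)] {D : ∀ i, Derivation k (F i) (F i)}
  {ι : Type} {φ : ι → K →ₐ[k] Ω}

open Classical in
/-- splitting a relation by a factor in which it has few values -/
theorem Rel.split {G : Finset ι} {c : ι → Ω} {S : Finset (Fin n)} (hR : Rel F D φ G c S) {j0 : ι}
    (hj0 : j0 ∈ G) {l : Fin n} (hl : l ∈ S) (hD : D l ≠ 0) {γ : ℕ}
    (hγ : ∀ t : F l, Transcendental k t → γ ≤ Module.finrank k⟮t⟯ (F l))
    (hlt : (G.image (vl F φ l)).card < γ) :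
    Rel F D φ (G.filter fun g => vl F φ l g = vl F φ l j0) c (S.erase l) := by
  have hmem : vl F φ l j0 ∈ G.image (vl F φ l) := Finset.mem_image_of_mem _ hj0
  obtain ⟨w, hw1, hw2, hw3⟩ := kill hD ((G.image (vl F φ l)).erase (vl F φ l j0)) (vl F φ l j0)
    (Finset.notMem_erase _ _) (fun t ht => by
      rw [Finset.card_erase_add_one hmem]
      exact lt_of_lt_of_le hlt (hγ t ht))
  refine (hR.app hl w hw1).drop (Finset.filter_subset _ _) (fun g hg hg' => ?_) fun g hg => ?_
  · have h4 : vl F φ l g ≠ vl F φ l j0 := by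
      intro h
      exact hg' (Finset.mem_filter.2 ⟨hg, h⟩)
    have h5 := hw2 (vl F φ l g) (Finset.mem_erase.2 ⟨h4, Finset.mem_image_of_mem _ hg⟩)
    change c g * (w.sum fun a t => t * vl F φ l g a) = 0
    rw [h5, mul_zero]
  · have h4 := (Finset.mem_filter.1 hg).2
    change c g * (w.sum fun a t => t * vl F φ l g a) = c g
    rw [h4, hw3, mul_one]

end

section

variable {K : Type} [Field K] [Algebra ℂ K] {n : ℕ}
  {F : Fin n → IntermediateField ℂ K} [∀ i, IsFF ℂ (F i)] {D : ∀ i, Derivation ℂ (F i) (F i)}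
  (L : IntermediateField ℂ K) [FiniteDimensional L K]

/-- the embeddings over `L` and their conjugates -/
noncomputable def phi {Ω : Type} [Field Ω] [Algebra ℂ Ω] (a b : AlgebraicClosure K →ₐ[ℂ] Ω) :
    (K →ₐ[L] AlgebraicClosure K) ⊕ (K →ₐ[L] AlgebraicClosure K) → K →ₐ[ℂ] Ω :=
  Sum.elim (fun σ => a.comp (σ.restrictScalars ℂ)) (fun σ => b.comp (σ.restrictScalars ℂ))

theorem phi_inl {Ω : Type} [Field Ω] [Algebra ℂ Ω] (a b : AlgebraicClosure K →ₐ[ℂ] Ω)
    (σ : K →ₐ[L] AlgebraicClosure K) (u : K) : phi L a b (Sum.inl σ) u = a (σ u) := rfl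

theorem phi_inr {Ω : Type} [Field Ω] [Algebra ℂ Ω] (a b : AlgebraicClosure K →ₐ[ℂ] Ω)
    (σ : K →ₐ[L] AlgebraicClosure K) (u : K) : phi L a b (Sum.inr σ) u = b (σ u) := rfl

variable {L}

theorem trace_emb (u : K) : algebraMap L (AlgebraicClosure K) (Algebra.trace L K u) =
    ∑ σ : K →ₐ[L] AlgebraicClosure K, σ u := by
  have h0 : CharZero L := charZero_of_injective_algebraMap (algebraMap ℂ L).injective
  exact trace_eq_sum_embeddings (AlgebraicClosure K)

/-- **The relation.** -/
theorem exists_rel (N : IntermediateField ℂ L) {J : K} (hJ : J ≠ 0) {g : ∀ i, F i}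
    (hTg : Algebra.trace L K (J * ∏ i, (g i : K)) ≠ 0)
    (hN : ∀ f : ∀ i, F i, (∀ i, RegD (D i) (f i)) →
      Algebra.trace L K (J * ∏ i, (f i : K)) / Algebra.trace L K (J * ∏ i, (g i : K)) ∈ N) :
    ∃ (Ω : Type) (_ : Field Ω) (_ : Algebra ℂ Ω) (a b : AlgebraicClosure K →ₐ[ℂ] Ω)
      (c : (K →ₐ[L] AlgebraicClosure K) ⊕ (K →ₐ[L] AlgebraicClosure K) → Ω) (lam : Ω),
      lam ≠ 0 ∧ (∀ σ, c (Sum.inl σ) = lam * a (σ J)) ∧ (∀ s, c s ≠ 0) ∧
      (∀ u u' : AlgebraicClosure K, b u = a u' → IsAlgebraic N u') ∧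
      Rel F D (phi L a b) Finset.univ c Finset.univ := by
  classical
  obtain ⟨Ω, i1, i2, τ, hτ1, hτ2⟩ := exists_tau N (AlgebraicClosure K)
  let i3 : Algebra ℂ Ω := ((algebraMap (AlgebraicClosure K) Ω).comp
    (algebraMap ℂ (AlgebraicClosure K))).toAlgebra
  let a : AlgebraicClosure K →ₐ[ℂ] Ω :=
    { algebraMap (AlgebraicClosure K) Ω with commutes' := fun _ => rfl }
  let b : AlgebraicClosure K →ₐ[ℂ] Ω :=
    { τ with
      commutes' := fun c => by
        have h1 := hτ1 (algebraMap ℂ N c)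
        have h2 : algebraMap N (AlgebraicClosure K) (algebraMap ℂ N c) =
            algebraMap ℂ (AlgebraicClosure K) c :=
          (IsScalarTower.algebraMap_apply ℂ N (AlgebraicClosure K) c).symm
        rw [h2] at h1
        exact h1 }
  have hab : ∀ q : L, q ∈ N → b (algebraMap L _ q) = a (algebraMap L _ q) := by
    intro q hq
    exact hτ1 ⟨q, hq⟩
  obtain ⟨tg, htg⟩ : ∃ tg : AlgebraicClosure K, tg = algebraMap L (AlgebraicClosure K)
    (Algebra.trace L K (J * ∏ i, (g i : K))) := ⟨_, rfl⟩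
  have htg0 : tg ≠ 0 := by
    rw [htg]
    exact (_root_.map_ne_zero _).2 hTg
  have ha0 : a tg ≠ 0 := (_root_.map_ne_zero _).2 htg0
  have hb0 : b tg ≠ 0 := (_root_.map_ne_zero _).2 htg0
  refine ⟨Ω, i1, i3, a, b, Sum.elim (fun σ => b tg / a tg * a (σ J)) (fun σ => -b (σ J)),
    b tg / a tg, div_ne_zero hb0 ha0, fun σ => rfl, ?_, hτ2, ?_⟩
  · rintro (σ | σ)
    · exact mul_ne_zero (div_ne_zero hb0 ha0)
        ((_root_.map_ne_zero _).2 ((_root_.map_ne_zero _).2 hJ))
    · exact neg_ne_zero.2 ((_root_.map_ne_zero _).2 ((_root_.map_ne_zero _).2 hJ))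
  · intro f hf
    have h1 := hN f fun i => hf i (Finset.mem_univ i)
    obtain ⟨q, hq⟩ : ∃ q : L, q = Algebra.trace L K (J * ∏ i, (f i : K)) /
      Algebra.trace L K (J * ∏ i, (g i : K)) := ⟨_, rfl⟩
    rw [← hq] at h1
    have h2 : Algebra.trace L K (J * ∏ i, (f i : K)) =
        q * Algebra.trace L K (J * ∏ i, (g i : K)) := by
      rw [hq, div_mul_cancel₀ _ hTg]
    have h3 := congrArg (algebraMap L (AlgebraicClosure K)) h2
    rw [trace_emb, map_mul, ← htg] at h3
    rw [Fintype.sum_sum_type]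
    have h4 : ∑ σ : K →ₐ[L] AlgebraicClosure K, (b tg / a tg * a (σ J)) *
        ∏ l, phi L a b (Sum.inl σ) (f l) =
        b tg / a tg * a (∑ σ : K →ₐ[L] AlgebraicClosure K, σ (J * ∏ i, (f i : K))) := by
      rw [map_sum, Finset.mul_sum]
      refine Finset.sum_congr rfl fun σ _ => ?_
      rw [map_mul, map_mul, map_prod, map_prod, mul_assoc]
      rfl
    have h5 : ∑ σ : K →ₐ[L] AlgebraicClosure K, (-b (σ J)) *
        ∏ l, phi L a b (Sum.inr σ) (f l) =
        -b (∑ σ : K →ₐ[L] AlgebraicClosure K, σ (J * ∏ i, (f i : K))) := by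
      rw [map_sum, ← Finset.sum_neg_distrib]
      refine Finset.sum_congr rfl fun σ _ => ?_
      rw [map_mul, map_mul, map_prod, map_prod, neg_mul]
      rfl
    have h6 := hab q h1
    change ∑ σ : K →ₐ[L] AlgebraicClosure K, (b tg / a tg * a (σ J)) *
        ∏ l, phi L a b (Sum.inl σ) (f l) + ∑ σ : K →ₐ[L] AlgebraicClosure K, (-b (σ J)) *
        ∏ l, phi L a b (Sum.inr σ) (f l) = 0
    rw [h4, h5, h3, map_mul, map_mul, h6]
    field_simp
    ring

theorem alg_iff (N : IntermediateField ℂ L) (σ : K →ₐ[L] AlgebraicClosure K) {u : K}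
    (h : IsAlgebraic N (σ u)) : IsAlgebraic N u :=
  (isAlgebraic_algHom_iff (σ.restrictScalars N) σ.injective).1 h

theorem phi_inj {N : IntermediateField ℂ L} {Ω : Type} [Field Ω] [Algebra ℂ Ω]
    {a b : AlgebraicClosure K →ₐ[ℂ] Ω}
    (hab : ∀ u u' : AlgebraicClosure K, b u = a u' → IsAlgebraic N u') {u : K}
    (hu : ¬ IsAlgebraic N u) : Function.Injective (phi L a b) := by
  rintro (σ | σ) (σ' | σ') h
  · congr 1
    ext z
    have h1 := DFunLike.congr_fun h z
    rw [phi_inl, phi_inl] at h1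
    exact a.injective h1
  · exfalso
    have h1 := DFunLike.congr_fun h u
    rw [phi_inl, phi_inr] at h1
    exact hu (alg_iff N σ (hab _ _ h1.symm))
  · exfalso
    have h1 := DFunLike.congr_fun h u
    rw [phi_inl, phi_inr] at h1
    exact hu (alg_iff N σ' (hab _ _ h1))
  · congr 1
    ext z
    have h1 := DFunLike.congr_fun h z
    rw [phi_inr, phi_inr] at h1
    exact b.injective h1

/-- **Large gonality.** The function field of a factor of gonality larger than `2 r` is algebraic
over the field generated by the ratios of the traces. -/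
theorem alg_of_big (hD : ∀ i, D i ≠ 0) (N : IntermediateField ℂ L) {J : K} (hJ : J ≠ 0)
    {g : ∀ i, F i} (hg : ∀ i, RegD (D i) (g i))
    (hTg : Algebra.trace L K (J * ∏ i, (g i : K)) ≠ 0)
    (hN : ∀ f : ∀ i, F i, (∀ i, RegD (D i) (f i)) →
      Algebra.trace L K (J * ∏ i, (f i : K)) / Algebra.trace L K (J * ∏ i, (g i : K)) ∈ N)
    {p : Fin n} (hp : ∀ t : F p, Transcendental ℂ t →
      2 * Module.finrank L K + 1 ≤ Module.finrank ℂ⟮t⟯ (F p)) (u : F p) :
    IsAlgebraic N (u : K) := by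
  classical
  by_contra hu
  obtain ⟨Ω, i1, i2, a, b, c, lam, hlam, hc, hc0, hab, hR⟩ := exists_rel N hJ hTg hN
  have hL0 : CharZero L := charZero_of_injective_algebraMap (algebraMap ℂ L).injective
  have hcard : Fintype.card ((K →ₐ[L] AlgebraicClosure K) ⊕ (K →ₐ[L] AlgebraicClosure K)) =
      2 * Module.finrank L K := by
    rw [Fintype.card_sum, AlgHom.card]
    ring
  have hne : ∀ σ σ', vl F (phi L a b) p (Sum.inr σ) ≠ vl F (phi L a b) p (Sum.inl σ') := by
    intro σ σ' h
    have h1 : b (σ u) = a (σ' u) := DFunLike.congr_fun h u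
    exact hu (alg_iff N σ' (hab _ _ h1))
  -- the classes
  have h1 : ∀ σ0 : K →ₐ[L] AlgebraicClosure K,
      ∑ σ ∈ (Finset.univ : Finset (K →ₐ[L] AlgebraicClosure K)).filter
        (fun σ => vl F (phi L a b) p (Sum.inl σ) = vl F (phi L a b) p (Sum.inl σ0)),
        a (σ (J * ∏ l ∈ Finset.univ.erase p, (g l : K))) = 0 := by
    intro σ0
    have h2 := hR.split (j0 := Sum.inl σ0) (Finset.mem_univ _) (Finset.mem_univ p) (hD p) hp (by
      have h3 := Finset.card_image_le
        (s := (Finset.univ : Finset ((K →ₐ[L] AlgebraicClosure K) ⊕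
          (K →ₐ[L] AlgebraicClosure K)))) (f := vl F (phi L a b) p)
      rw [Finset.card_univ, hcard] at h3
      omega) g fun i _ => hg i
    rw [Finset.sum_filter, Fintype.sum_sum_type] at h2
    rw [Finset.sum_eq_zero (s := (Finset.univ : Finset (K →ₐ[L] AlgebraicClosure K)))
      (f := fun σ => if vl F (phi L a b) p (Sum.inr σ) = vl F (phi L a b) p (Sum.inl σ0) then
        c (Sum.inr σ) * ∏ l ∈ Finset.univ.erase p, phi L a b (Sum.inr σ) (g l) else 0)
      (fun σ _ => if_neg (hne σ σ0)), add_zero, ← Finset.sum_filter] at h2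
    have h3 : ∑ σ ∈ (Finset.univ : Finset (K →ₐ[L] AlgebraicClosure K)).filter
        (fun σ => vl F (phi L a b) p (Sum.inl σ) = vl F (phi L a b) p (Sum.inl σ0)),
        c (Sum.inl σ) * ∏ l ∈ Finset.univ.erase p, phi L a b (Sum.inl σ) (g l) =
        lam * ∑ σ ∈ (Finset.univ : Finset (K →ₐ[L] AlgebraicClosure K)).filter
        (fun σ => vl F (phi L a b) p (Sum.inl σ) = vl F (phi L a b) p (Sum.inl σ0)),
        a (σ (J * ∏ l ∈ Finset.univ.erase p, (g l : K))) := by
      rw [Finset.mul_sum]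
      refine Finset.sum_congr rfl fun σ _ => ?_
      rw [hc, map_mul, map_mul, map_prod, map_prod, mul_assoc]
      rfl
    rw [h3] at h2
    exact (mul_eq_zero.1 h2).resolve_left hlam
  apply hTg
  apply (algebraMap L (AlgebraicClosure K)).injective
  rw [trace_emb, map_zero]
  apply a.injective
  rw [map_zero, map_sum]
  rw [← Finset.sum_fiberwise_of_maps_to (s := (Finset.univ : Finset (K →ₐ[L] AlgebraicClosure K)))
    (t := Finset.univ.image fun σ => vl F (phi L a b) p (Sum.inl σ))
    (g := fun σ => vl F (phi L a b) p (Sum.inl σ))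
    (fun σ _ => Finset.mem_image_of_mem _ (Finset.mem_univ σ))]
  refine Finset.sum_eq_zero fun v hv => ?_
  obtain ⟨σ0, -, rfl⟩ := Finset.mem_image.1 hv
  have h4 : ∑ σ ∈ (Finset.univ : Finset (K →ₐ[L] AlgebraicClosure K)).filter
      (fun σ => vl F (phi L a b) p (Sum.inl σ) = vl F (phi L a b) p (Sum.inl σ0)),
      a (σ (J * ∏ l, (g l : K))) =
      a (σ0 (g p)) * ∑ σ ∈ (Finset.univ : Finset (K →ₐ[L] AlgebraicClosure K)).filter
      (fun σ => vl F (phi L a b) p (Sum.inl σ) = vl F (phi L a b) p (Sum.inl σ0)),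
      a (σ (J * ∏ l ∈ Finset.univ.erase p, (g l : K))) := by
    rw [Finset.mul_sum]
    refine Finset.sum_congr rfl fun σ hσ => ?_
    have h5 : a (σ (g p)) = a (σ0 (g p)) :=
      DFunLike.congr_fun (Finset.mem_filter.1 hσ).2 (g p)
    rw [← Finset.mul_prod_erase _ _ (Finset.mem_univ p), ← h5, ← map_mul, ← map_mul]
    congr 2
    ring
  exact h4.trans (by rw [h1, mul_zero])

/-- the trace to a field between, through the embeddings -/
theorem trace_mid (E2 : IntermediateField L K) (T : Set K) (hE2 : E2 = IntermediateField.adjoin L T)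
    (Φ : Finset (K →ₐ[L] AlgebraicClosure K))
    (hΦ : ∀ σ, σ ∈ Φ ↔ ∀ t ∈ T, σ t = algebraMap K (AlgebraicClosure K) t) {w : K}
    (h : ∑ σ ∈ Φ, σ w = 0) : Algebra.trace E2 K w = 0 := by
  classical
  have h0 : CharZero L := charZero_of_injective_algebraMap (algebraMap ℂ L).injective
  have h1 : CharZero E2 := charZero_of_injective_algebraMap (algebraMap L E2).injective
  apply (algebraMap E2 (AlgebraicClosure K)).injective
  rw [trace_eq_sum_embeddings (AlgebraicClosure K), map_zero, ← h]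
  refine Finset.sum_nbij (fun σ => σ.restrictScalars L) (fun σ _ => ?_) (fun σ _ σ' _ h2 => ?_)
    (fun σ hσ => ?_) (fun σ _ => rfl)
  · rw [hΦ]
    intro t ht
    have h2 : t ∈ E2 := by
      rw [hE2]
      exact IntermediateField.subset_adjoin _ _ ht
    exact σ.commutes ⟨t, h2⟩
  · exact AlgHom.restrictScalars_injective L h2
  · have h2 := (hΦ σ).1 hσ
    let C0 : IntermediateField L K :=
      { carrier := {z | σ z = algebraMap K (AlgebraicClosure K) z}
        mul_mem' := fun {a b} ha hb => by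
          change σ (a * b) = _
          rw [map_mul, map_mul, show σ a = _ from ha, show σ b = _ from hb]
        add_mem' := fun {a b} ha hb => by
          change σ (a + b) = _
          rw [map_add, map_add, show σ a = _ from ha, show σ b = _ from hb]
        algebraMap_mem' := fun c => by
          change σ _ = _
          rw [AlgHom.commutes]
          rfl
        inv_mem' := fun a ha => by
          change σ a⁻¹ = _
          rw [map_inv₀, map_inv₀, show σ a = _ from ha] }
    have h3 : E2 ≤ C0 := by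
      rw [hE2, IntermediateField.adjoin_le_iff]
      exact fun t ht => h2 t ht
    exact ⟨{ σ with commutes' := fun e => h3 e.2 }, Finset.mem_coe.2 (Finset.mem_univ _), by
      ext z
      rfl⟩

/-- **Two factors.** If the function fields of two factors are not algebraic over the field generated
by the ratios of the traces then the traces to a field which contains all factors but one are zero. -/
theorem line_of_two (hD : ∀ i, D i ≠ 0) (hsup : ⨆ i, F i = ⊤) {γ : Fin n → ℕ}
    (hγ : ∀ i (t : F i), Transcendental ℂ t → γ i ≤ Module.finrank ℂ⟮t⟯ (F i))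
    (hr : ∀ i j, i ≠ j → 2 * Module.finrank L K + 3 ≤ γ i + γ j)
    (N : IntermediateField ℂ L) {J : K} (hJ : J ≠ 0) {g : ∀ i, F i}
    (hTg : Algebra.trace L K (J * ∏ i, (g i : K)) ≠ 0)
    (hN : ∀ f : ∀ i, F i, (∀ i, RegD (D i) (f i)) →
      Algebra.trace L K (J * ∏ i, (f i : K)) / Algebra.trace L K (J * ∏ i, (g i : K)) ∈ N)
    {p q : Fin n} (hpq : p ≠ q) {u : F p} (hu : ¬ IsAlgebraic N (u : K)) {v : F q}
    (hv : ¬ IsAlgebraic N (v : K)) :
    ∃ (i : Fin n) (E2 : IntermediateField ℂ K), L ≤ E2 ∧ FiniteDimensional E2 K ∧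
      (∀ j, j ≠ i → F j ≤ E2) ∧ TrZ F D J {i} E2 := by
  classical
  obtain ⟨Ω, i1, i2, a, b, c, lam, hlam, hc, hc0, hab, hR⟩ := exists_rel N hJ hTg hN
  have hL0 : CharZero L := charZero_of_injective_algebraMap (algebraMap ℂ L).injective
  have hcard : Fintype.card ((K →ₐ[L] AlgebraicClosure K) ⊕ (K →ₐ[L] AlgebraicClosure K)) =
      2 * Module.finrank L K := by
    rw [Fintype.card_sum, AlgHom.card]
    ring
  let σ0 : K →ₐ[L] AlgebraicClosure K := IsScalarTower.toAlgHom L K (AlgebraicClosure K)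
  have hCu : Cls F (phi L a b) (Sum.inl σ0) Finset.univ = Finset.univ := by
    ext s
    rw [mem_Cls]
    simp
  obtain ⟨i, hi⟩ := lines (F := F) (D := D) (φ := phi L a b) (j0 := Sum.inl σ0) hD hsup hγ
    (phi_inj hab hu) (hc0 _) (by rw [hcard]; exact hr) n Finset.univ (by simp) (by
      rw [hCu]
      exact hR)
  have hne : ∀ σ, Sum.inr σ ∉ Cls F (phi L a b) (Sum.inl σ0) {i} := by
    intro σ hσ
    rw [mem_Cls] at hσ
    by_cases hpi : p = i
    · have hqi : q ∉ ({i} : Finset (Fin n)) := by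
        rw [Finset.mem_singleton, ← hpi]
        exact hpq.symm
      have h1 : b (σ v) = a (σ0 v) := DFunLike.congr_fun (hσ q hqi) v
      exact hv (alg_iff N σ0 (hab _ _ h1))
    · have hpi' : p ∉ ({i} : Finset (Fin n)) := by
        rwa [Finset.mem_singleton]
      have h1 : b (σ u) = a (σ0 u) := DFunLike.congr_fun (hσ p hpi') u
      exact hu (alg_iff N σ0 (hab _ _ h1))
  obtain ⟨T, hT⟩ : ∃ T : Set K, T = {t | ∃ l, l ≠ i ∧ t ∈ F l} := ⟨_, rfl⟩
  obtain ⟨E2, hE2⟩ : ∃ E2 : IntermediateField L K, E2 = IntermediateField.adjoin L T := ⟨_, rfl⟩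
  have hfin : FiniteDimensional E2 K := inferInstance
  refine ⟨i, E2.restrictScalars ℂ, ?_, hfin, ?_, ?_⟩
  · intro z hz
    exact E2.algebraMap_mem ⟨z, hz⟩
  · intro j hj z hz
    change z ∈ E2
    rw [hE2]
    refine IntermediateField.subset_adjoin _ _ ?_
    rw [hT]
    exact ⟨j, hj, hz⟩
  · intro f hf
    have h1 := hi f hf
    have h2 : ∑ σ ∈ (Finset.univ : Finset (K →ₐ[L] AlgebraicClosure K)).filter
        (fun σ => Sum.inl σ ∈ Cls F (phi L a b) (Sum.inl σ0) {i}), σ (J * (f i : K)) = 0 := by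
      have h3 : lam * a (∑ σ ∈ (Finset.univ : Finset (K →ₐ[L] AlgebraicClosure K)).filter
        (fun σ => Sum.inl σ ∈ Cls F (phi L a b) (Sum.inl σ0) {i}), σ (J * (f i : K))) = 0 := by
        rw [← h1, ← Finset.sum_filter_add_sum_filter_not (Cls F (phi L a b) (Sum.inl σ0) {i})
          (fun s => ∃ σ, s = Sum.inl σ)]
        have h4 : (Cls F (phi L a b) (Sum.inl σ0) {i}).filter (fun s => ¬ ∃ σ, s = Sum.inl σ) =
            ∅ := by
          rw [Finset.filter_eq_empty_iff]
          rintro (σ | σ) hs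
          · exact not_not.2 ⟨σ, rfl⟩
          · exact absurd hs (hne σ)
        rw [h4, Finset.sum_empty, add_zero, map_sum, Finset.mul_sum]
        refine Finset.sum_bij (fun σ _ => Sum.inl σ) (fun σ hσ => ?_) (fun σ _ σ' _ h5 => ?_)
          (fun s hs => ?_) (fun σ hσ => ?_)
        · rw [Finset.mem_filter]
          exact ⟨(Finset.mem_filter.1 hσ).2, σ, rfl⟩
        · exact Sum.inl_injective h5
        · obtain ⟨hs1, σ, rfl⟩ := Finset.mem_filter.1 hs
          exact ⟨σ, Finset.mem_filter.2 ⟨Finset.mem_univ _, hs1⟩, rfl⟩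
        · rw [hc, Finset.prod_singleton, map_mul, map_mul, mul_assoc]
          rfl
      have h4 := (mul_eq_zero.1 h3).resolve_left hlam
      exact (map_eq_zero a).1 h4
    have h3 := trace_mid E2 T hE2 ((Finset.univ : Finset (K →ₐ[L] AlgebraicClosure K)).filter
        (fun σ => Sum.inl σ ∈ Cls F (phi L a b) (Sum.inl σ0) {i})) (fun σ => by
      rw [Finset.mem_filter, mem_Cls, hT]
      constructor
      · rintro ⟨-, h4⟩ t ⟨l, hl, ht⟩
        have h5 : a (σ t) = a (σ0 t) :=
          DFunLike.congr_fun (h4 l (by rwa [Finset.mem_singleton])) ⟨t, ht⟩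
        exact a.injective h5
      · intro h4
        refine ⟨Finset.mem_univ _, fun l hl => ?_⟩
        rw [Finset.mem_singleton] at hl
        ext t
        change a (σ t) = a (σ0 t)
        rw [h4 t ⟨l, hl, t.2⟩]
        rfl) h2
    rw [Finset.prod_singleton]
    have h4 : ((Algebra.trace E2 K (J * (f i : K)) : E2) : K) = 0 := by
      rw [h3]
      rfl
    exact Subtype.ext h4

end

end Pool.Agent.Helper11K9.MT
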