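import Pool.Agent.Helper11K9.MT.Uni
import Pool.Agent.Helper11K9.MT.Two
import Pool.Agent.Helper11K9.MT.Ind
import Pool.Agent.R882.LTr
import Pool.Agent.R882.UC

/-!
The Kodaira dimension of images of small degree of products of curves.
-/

set_option autoImplicit false
set_option linter.overlappingInstances false
set_option linter.unusedSectionVars false

open FF

namespace Pool.Agent.Helper11K9.MT

open Pool.Agent.W603.LV Pool.Agent.W602.RG
open Pool.Agent.W602.GT (Divisorial RegAt IsPluri KodGe LogSec)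
open Pool.Agent.W619.PQ (extForm IsUniruled)
open Pool.Agent.R882.Over (GenusZero)
open Pool.Agent.Helper11K9.PC
open Pool.Agent.Y184.NT (trForm trForm_pluri)

/-- canonical forms whose ratios contain algebraically independent functions -/
theorem kod_of_forms {L : Type} [Field L] [Algebra ℂ L] {n h : ℕ}
    (ω : Fin (h + 1) → (Fin n → Derivation ℂ L L) → L) (h1 : ∀ j, IsPluri 1 (ω j))
    (h2 : ∀ j (P : Place ℂ L), Divisorial n P → RegAt P (ω j)) {D : Fin n → Derivation ℂ L L}
    (hD : ω 0 D ≠ 0) (hind : AlgebraicIndependent ℂ (fun i : Fin h => ω i.succ D / ω 0 D)) :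
    KodGe ℂ L n (fun _ => False) h :=
  ⟨1, one_pos, ω, fun j => ⟨h1 j, fun P hP D' hD' =>
    h2 j P hP D' fun i => Pool.Agent.TH466.QG.derReg_of_log (hD' i),
    fun P hP _ => h2 j P hP⟩, D, hD, hind⟩

/-- **The Kodaira dimension.** -/
theorem kod_of_alg {K : Type} [Field K] [Algebra ℂ K] {n : ℕ} (F : Fin n → IntermediateField ℂ K)
    [∀ i, IsFF ℂ (F i)] (hsup : ⨆ i, F i = ⊤) (hn : Algebra.trdeg ℂ K = n)
    (L : IntermediateField ℂ K) [FiniteDimensional L K] {D : ∀ i, Derivation ℂ (F i) (F i)}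
    (hD : ∀ i, D i ≠ 0) {x : ∀ i, F i} (hx : ∀ i, Transcendental ℂ (x i)) {z : Fin n → L}
    {E : Fin n → Derivation ℂ L L} (hz : IsTranscendenceBasis ℂ z)
    (hE : ∀ i j, E i (z j) = if i = j then 1 else 0) {E' : Fin n → Derivation ℂ K K}
    (hE' : ∀ i f, E' i (algebraMap L K f) = algebraMap L K (E i f)) {J : K}
    (hJ : J = extForm 1 D x (fun _ => 1) E') {g : ∀ i, F i} (hg : ∀ i, RegD (D i) (g i))
    (hTg : Algebra.trace L K (J * ∏ i, (g i : K)) ≠ 0) (P : Finset (Fin n))
    (hP : ∀ p ∈ P, IsAlgebraic (IntermediateField.adjoin ℂ {t : L | ∃ f : ∀ i, F i,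
      (∀ i, RegD (D i) (f i)) ∧ t = Algebra.trace L K (J * ∏ i, (f i : K)) /
        Algebra.trace L K (J * ∏ i, (g i : K))}) (x p : K)) :
    KodGe ℂ L n (fun _ => False) P.card := by
  classical
  have hK0 : CharZero K := charZero_of_injective_algebraMap (algebraMap ℂ K).injective
  have hessK : Algebra.EssFiniteType ℂ K := ess_top F hsup
  have hessL : Algebra.EssFiniteType ℂ L := Pool.Agent.TH466.QG.ess_below (K := K)
  have hL : Algebra.trdeg ℂ L = n := Pool.Agent.Y184.NT.trdeg_below (K := K) hn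
  have hxb : IsTranscendenceBasis ℂ fun i => algebraMap (F i) K (x i) :=
    Pool.Agent.W619.PQ.basis_of_iSup F hsup hn x hx
  have hxi : AlgebraicIndependent ℂ fun i : Fin P.card => (x (P.equivFin.symm i) : K) :=
    hxb.1.comp (fun i : Fin P.card => ((P.equivFin.symm i : P) : Fin n)) (by
      intro i j hij
      exact P.equivFin.symm.injective (Subtype.ext hij))
  obtain ⟨y, hy, hyi⟩ := exists_ind hxi fun i => hP _ (P.equivFin.symm i).2
  choose f hf hyf using hy
  obtain ⟨T, hT⟩ : ∃ T : (∀ i, F i) → L, T = fun f => Algebra.trace L K (J * ∏ i, (f i : K)) :=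
    ⟨_, rfl⟩
  have hval : ∀ f : ∀ i, F i, trForm z (Algebra.trace L K (extForm 1 D x f E')) E = T f := by
    intro f
    have h1 : (Matrix.of fun i j => E i (z j) : Matrix (Fin n) (Fin n) L) = 1 := by
      ext i j
      rw [Matrix.of_apply, hE, Matrix.one_apply]
    rw [trForm, h1, Matrix.det_one, one_mul, hT, ext_val, ← hJ]
  have hreg : ∀ f : ∀ i, F i, (∀ i, RegD (D i) (f i)) → ∀ P : Place ℂ L, Divisorial n P →
      RegAt P (trForm z (Algebra.trace L K (extForm 1 D x f E'))) := by
    intro f hf P hP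
    exact Pool.Agent.R882.LT.trForm_regAt hL hz hE hE' _
      (Pool.Agent.W619.PQ.extForm_pluri 1 D x f) P hP fun Q e hQ =>
        ext_reg hD hx hf Q (Pool.Agent.Y172.divisorial_up hQ hP)
  let ff : Fin (P.card + 1) → ∀ i, F i := Fin.cons g f
  have hff : ∀ j i, RegD (D i) (ff j i) := by
    intro j
    refine Fin.cases ?_ (fun j => ?_) j
    · exact hg
    · exact hf j
  refine kod_of_forms (fun j => trForm z (Algebra.trace L K (extForm 1 D x (ff j) E')))
    (fun j => trForm_pluri z _) (fun j P hP => hreg (ff j) (hff j) P hP) (D := E) ?_ ?_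
  · change trForm z (Algebra.trace L K (extForm 1 D x (ff 0) E')) E ≠ 0
    rw [hval, hT]
    exact hTg
  · have h1 : (fun i : Fin P.card => trForm z (Algebra.trace L K (extForm 1 D x (ff i.succ) E')) E /
        trForm z (Algebra.trace L K (extForm 1 D x (ff 0) E')) E) = y := by
      funext i
      rw [hval, hval, hT]
      exact (hyf i).symm
    rw [h1]
    exact hyi

/-- **Images of products of curves.** -/
theorem main {K : Type} [Field K] [Algebra ℂ K] {n : ℕ} (F : Fin n → IntermediateField ℂ K)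
    [∀ i, IsFF ℂ (F i)] (hsup : ⨆ i, F i = ⊤) (hn : Algebra.trdeg ℂ K = n) {γ : Fin n → ℕ}
    (hγ : ∀ i (t : F i), Transcendental ℂ t →
      γ i ≤ Module.finrank (IntermediateField.adjoin ℂ {t}) (F i))
    (L : IntermediateField ℂ K) [FiniteDimensional L K]
    (hr : ∀ i j, i ≠ j → Module.finrank L K + 3 ≤ γ i + γ j) :
    IsUniruled ℂ L n ∨
      ((∀ P : Finset (Fin n), (∀ p ∈ P, 2 * Module.finrank L K + 1 ≤ γ p) →
        KodGe ℂ L n (fun _ => False) P.card) ∧
      ((∀ i j, i ≠ j → 2 * Module.finrank L K + 3 ≤ γ i + γ j) →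
        KodGe ℂ L n (fun _ => False) (n - 1))) := by
  classical
  have hK0 : CharZero K := charZero_of_injective_algebraMap (algebraMap ℂ K).injective
  have hessK : Algebra.EssFiniteType ℂ K := ess_top F hsup
  have hessL : Algebra.EssFiniteType ℂ L := Pool.Agent.TH466.QG.ess_below (K := K)
  have hL : Algebra.trdeg ℂ L = n := Pool.Agent.Y184.NT.trdeg_below (K := K) hn
  obtain ⟨z, E, hz, hE⟩ := Pool.Agent.Y172.exists_crd (k := ℂ) (K := L) hL
  choose E' hE' using fun i => Pool.Agent.Y172.exists_lift (k := ℂ) (K := L) (L := K) hL (E i)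
  have hzK : IsTranscendenceBasis ℂ (fun j => algebraMap L K (z j)) := hz.algebraMap_comp
  have hE'd := Pool.Agent.Y172.lift_dual hE hE'
  choose x hx using fun i => IsFF.exists_transcendental (k := ℂ) (K := F i)
  obtain ⟨D, hDe⟩ : ∃ D : ∀ i, Derivation ℂ (F i) (F i), D = fun i => der ℂ (F i) := ⟨_, rfl⟩
  have hD : ∀ i, D i ≠ 0 := by
    intro i
    rw [hDe]
    exact der_ne
  obtain ⟨J, hJ⟩ : ∃ J : K, J = extForm 1 D x (fun _ => 1) E' := ⟨_, rfl⟩
  have hJ0 : J ≠ 0 := by
    have hxb : IsTranscendenceBasis ℂ fun i => algebraMap (F i) K (x i) :=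
      Pool.Agent.W619.PQ.basis_of_iSup F hsup hn x hx
    obtain ⟨G, hG⟩ := Pool.Agent.W619.PQ.extForm_ne (K := K) 1 D x (fun _ => 1)
      (fun i => one_ne_zero) (fun i => der_ne_zero (hD i) (hx i)) hxb
    have h1 := Pool.Agent.Y172.pluri_coord hzK hE'd (m := 1)
      (ω := extForm 1 D x (fun _ => 1)) (Pool.Agent.W619.PQ.extForm_pluri 1 D x _) G
    rw [h1] at hG
    rw [hJ]
    exact right_ne_zero_of_mul hG
  by_cases hg : ∃ g : ∀ i, F i, (∀ i, RegD (D i) (g i)) ∧
      Algebra.trace L K (J * ∏ i, (g i : K)) ≠ 0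
  swap
  · left
    push Not at hg
    have hT : TrZ F D J Finset.univ L := fun f hf => hg f fun i => hf i (Finset.mem_univ i)
    obtain ⟨i, E2, hLE, hfinE, hFE, hT2⟩ := rec_main hD hsup hγ hJ0 hr n Finset.univ L
      (by simp) inferInstance le_rfl (fun j hj => absurd (Finset.mem_univ j) hj) hT
    have hc : ∀ j, ∃ c : F j, j ≠ i → RegD (D j) c := by
      intro j
      by_cases hj : j = i
      · exact ⟨0, fun h => absurd hj h⟩
      · obtain ⟨c, hc⟩ := exists_regD (hD j) fun t ht =>
          lt_of_lt_of_le (by have := (hFE j hj).2; omega) (hγ j t ht)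
        exact ⟨c, fun _ => hc⟩
    choose c hc using hc
    exact uni_of_line F hsup hn L hD hx hz hE hE' hJ i E2 hLE hfinE
      (fun j hj => (hFE j hj).1) hc hT2
  · obtain ⟨g, hg, hTg⟩ := hg
    obtain ⟨N, hN⟩ : ∃ N : IntermediateField ℂ L, N = IntermediateField.adjoin ℂ
      {t : L | ∃ f : ∀ i, F i, (∀ i, RegD (D i) (f i)) ∧
        t = Algebra.trace L K (J * ∏ i, (f i : K)) /
        Algebra.trace L K (J * ∏ i, (g i : K))} := ⟨_, rfl⟩
    have hNm : ∀ f : ∀ i, F i, (∀ i, RegD (D i) (f i)) →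
        Algebra.trace L K (J * ∏ i, (f i : K)) /
          Algebra.trace L K (J * ∏ i, (g i : K)) ∈ N := by
      intro f hf
      rw [hN]
      exact IntermediateField.subset_adjoin _ _ ⟨f, hf, rfl⟩
    have hkod : ∀ P : Finset (Fin n), (∀ p ∈ P, ∀ u : F p, IsAlgebraic N (u : K)) →
        KodGe ℂ L n (fun _ => False) P.card := fun P hP =>
      kod_of_alg F hsup hn L hD hx hz hE hE' hJ hg hTg P fun p hp => by
        rw [← hN]
        exact hP p hp (x p)
    by_cases huni : IsUniruled ℂ L n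
    · exact Or.inl huni
    right
    refine ⟨fun P hP => ?_, fun hr2 => ?_⟩
    · exact hkod P fun p hp u => alg_of_big hD N hJ0 hg hTg hNm
        (fun t ht => (hP p hp).trans (hγ p t ht)) u
    · obtain ⟨P, hPd⟩ : ∃ P : Finset (Fin n), P = Finset.univ.filter fun p =>
        ∀ u : F p, IsAlgebraic N (u : K) := ⟨_, rfl⟩
      have h1 := hkod P fun p hp => by
        rw [hPd, Finset.mem_filter] at hp
        exact hp.2
      refine Pool.Agent.R882.UA.kod_mono h1 ?_
      by_contra hcon
      have h2 : 1 < (Finset.univ \ P).card := by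
        rw [Finset.card_sdiff_of_subset (Finset.subset_univ P), Finset.card_univ,
          Fintype.card_fin]
        omega
      obtain ⟨p, hp, q, hq, hpq⟩ := Finset.one_lt_card.1 h2
      rw [hPd, Finset.mem_sdiff, Finset.mem_filter] at hp hq
      have hp' : ∃ u : F p, ¬ IsAlgebraic N (u : K) := by
        by_contra h
        push Not at h
        exact hp.2 ⟨Finset.mem_univ _, h⟩
      have hq' : ∃ u : F q, ¬ IsAlgebraic N (u : K) := by
        by_contra h
        push Not at h
        exact hq.2 ⟨Finset.mem_univ _, h⟩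
      obtain ⟨u, hu⟩ := hp'
      obtain ⟨v, hv⟩ := hq'
      obtain ⟨i, E2, h3, h4, h5, h6⟩ := line_of_two hD hsup hγ hr2 N hJ0 hTg hNm hpq hu hv
      exact huni (uni_of_line F hsup hn L hD hx hz hE hE' hJ i E2 h3 h4 h5
        (fun j _ => hg j) h6)

end Pool.Agent.Helper11K9.MT
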