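import Pool.Agent.Helper11K9.PC.Rec

/-!
Linear relations between few embeddings of the function field of a product of curves.
-/

set_option autoImplicit false
set_option linter.overlappingInstances false
set_option linter.unusedSectionVars false

open Polynomial FF IntermediateField

namespace Pool.Agent.Helper11K9.MT

open Pool.Agent.W603.LV Pool.Agent.W619.PQ Pool.Agent.Helper11K9.PC

section

variable {k F Ω : Type} [Field k] [Field F] [Algebra k F] [CharZero k] [IsFF k F] [IsAlgClosed k]
  [Field Ω] [Algebra k Ω]

/-- a combination of regular differentials which separates an embedding from a few others -/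
theorem kill {D : Derivation k F F} (hD : D ≠ 0) (V : Finset (F →ₐ[k] Ω)) (v0 : F →ₐ[k] Ω)
    (h0 : v0 ∉ V) (hgon : ∀ t : F, Transcendental k t → V.card + 1 < Module.finrank k⟮t⟯ F) :
    ∃ w : F →₀ Ω, (∀ a ∈ w.support, RegD D a) ∧
      (∀ v ∈ V, (w.sum fun a t => t * v a) = 0) ∧ (w.sum fun a t => t * v0 a) = 1 := by
  classical
  let I := {v // v ∈ insert v0 V}
  let ev : F → I → Ω := fun f v => (v : F →ₐ[k] Ω) f
  have htop : Submodule.span Ω (ev '' {f | RegD D f}) = ⊤ := by
    by_contra hne
    obtain ⟨g, hg0, hg⟩ := Submodule.exists_le_ker_of_lt_top _ (lt_top_iff_ne_top.2 hne)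
    apply hg0
    have hcard : Fintype.card I = V.card + 1 := by
      rw [Fintype.card_coe, Finset.card_insert_of_notMem h0]
    have h1 := sep_emb (Ω := Ω) hD (fun v : I => (v : F →ₐ[k] Ω)) Subtype.val_injective
      (fun t ht => by rw [hcard]; exact hgon t ht) (fun v => g (Pi.single v 1)) (fun f hf0 hf => by
        have h2 : g (ev f) = 0 := hg (Submodule.subset_span ⟨f, ⟨hf0, hf⟩, rfl⟩)
        rw [LinearMap.pi_apply_eq_sum_univ] at h2
        rw [← h2]
        refine Finset.sum_congr rfl fun v _ => ?_
        rw [smul_eq_mul, mul_comm]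
        have h3 : (Pi.single v 1 : I → Ω) = fun j => if v = j then 1 else 0 := by
          funext j
          rw [Pi.single_apply]
          by_cases h : j = v
          · rw [if_pos h, if_pos h.symm]
          · rw [if_neg h, if_neg (Ne.symm h)]
        rw [h3])
    refine LinearMap.pi_ext' fun v => LinearMap.ext_ring ?_
    exact congrFun h1 v
  have h1 : (Pi.single ⟨v0, Finset.mem_insert_self _ _⟩ 1 : I → Ω) ∈
      Submodule.span Ω (ev '' {f | RegD D f}) := by
    rw [htop]
    trivial
  rw [Finsupp.mem_span_image_iff_linearCombination] at h1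
  obtain ⟨w, hw, hw2⟩ := h1
  rw [Finsupp.mem_supported] at hw
  have h2 : ∀ v : I, (w.sum fun a t => t * (v : F →ₐ[k] Ω) a) =
      (Pi.single ⟨v0, Finset.mem_insert_self _ _⟩ 1 : I → Ω) v := by
    intro v
    rw [← hw2, Finsupp.linearCombination_apply, Finsupp.sum, Finsupp.sum, Finset.sum_apply]
    rfl
  refine ⟨w, fun a ha => hw ha, fun v hv => ?_, ?_⟩
  · rw [h2 ⟨v, Finset.mem_insert_of_mem hv⟩, Pi.single_eq_of_ne]
    intro h
    rw [Subtype.mk.injEq] at h
    exact h0 (h ▸ hv)
  · rw [h2 ⟨v0, Finset.mem_insert_self _ _⟩, Pi.single_eq_same]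

end

section

variable {k K Ω : Type} [Field k] [Field K] [Algebra k K] [CharZero k] [IsAlgClosed k]
  [Field Ω] [Algebra k Ω] {n : ℕ}
  (F : Fin n → IntermediateField k K) [∀ i, IsFF k (F i)] (D : ∀ i, Derivation k (F i) (F i))
  {ι : Type} (φ : ι → K →ₐ[k] Ω)

/-- a linear relation between the embeddings in `G`, on the products of regular differentials of
the curves in `S` -/
def Rel (G : Finset ι) (c : ι → Ω) (S : Finset (Fin n)) : Prop :=
  ∀ f : ∀ i, F i, (∀ i ∈ S, RegD (D i) (f i)) → ∑ g ∈ G, c g * ∏ l ∈ S, φ g (f l) = 0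

variable {F D φ}

/-- evaluation of a relation on a combination of regular differentials in one factor -/
theorem Rel.app {G : Finset ι} {c : ι → Ω} {S : Finset (Fin n)} (h : Rel F D φ G c S) {i : Fin n}
    (hi : i ∈ S) (w : F i →₀ Ω) (hw : ∀ a ∈ w.support, RegD (D i) a) :
    Rel F D φ G (fun g => c g * w.sum fun a t => t * φ g a) (S.erase i) := by
  classical
  intro f hf
  have h1 : ∀ a ∈ w.support, ∑ g ∈ G, c g * (φ g a * ∏ l ∈ S.erase i, φ g (f l)) = 0 := by
    intro a ha
    have h2 := h (Function.update f i a) fun l hl => by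
      by_cases hli : l = i
      · subst hli
        rw [Function.update_self]
        exact hw a ha
      · rw [Function.update_of_ne hli]
        exact hf l (Finset.mem_erase.2 ⟨hli, hl⟩)
    rw [← h2]
    refine Finset.sum_congr rfl fun g _ => ?_
    rw [← Finset.mul_prod_erase _ _ hi, Function.update_self]
    congr 2
    refine Finset.prod_congr rfl fun l hl => ?_
    rw [Function.update_of_ne (Finset.ne_of_mem_erase hl)]
  have h3 : ∑ g ∈ G, (c g * w.sum fun a t => t * φ g a) * ∏ l ∈ S.erase i, φ g (f l) =
      ∑ a ∈ w.support, w a * ∑ g ∈ G, c g * (φ g a * ∏ l ∈ S.erase i, φ g (f l)) := by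
    simp only [Finsupp.sum, Finset.mul_sum, Finset.sum_mul]
    rw [Finset.sum_comm]
    refine Finset.sum_congr rfl fun a _ => Finset.sum_congr rfl fun g _ => ?_
    ring
  rw [h3]
  exact Finset.sum_eq_zero fun a ha => by rw [h1 a ha, mul_zero]

theorem Rel.drop {G G' : Finset ι} {c c' : ι → Ω} {S : Finset (Fin n)} (h : Rel F D φ G c S)
    (hG : G' ⊆ G) (h0 : ∀ g ∈ G, g ∉ G' → c g = 0) (h1 : ∀ g ∈ G', c g = c' g) :
    Rel F D φ G' c' S := by
  intro f hf
  have h2 := h f hf
  rw [← Finset.sum_subset hG fun g hg hg' => by rw [h0 g hg hg', zero_mul]] at h2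
  rw [← h2]
  exact Finset.sum_congr rfl fun g hg => by rw [h1 g hg]

variable (F φ)

/-- the restriction of an embedding to a factor -/
def vl (l : Fin n) (g : ι) : F l →ₐ[k] Ω := (φ g).comp (F l).val

variable [Fintype ι] (j0 : ι)

open Classical in
/-- the members of the family which agree with `j0` outside of `S` -/
noncomputable def Cls (S : Finset (Fin n)) : Finset ι :=
  Finset.univ.filter fun g => ∀ l, l ∉ S → vl F φ l g = vl F φ l j0

variable {F φ j0}

theorem mem_Cls {S : Finset (Fin n)} {g : ι} :
    g ∈ Cls F φ j0 S ↔ ∀ l, l ∉ S → vl F φ l g = vl F φ l j0 := by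
  classical
  simp [Cls]

theorem Cls_mono {S T : Finset (Fin n)} (h : S ⊆ T) : Cls F φ j0 S ⊆ Cls F φ j0 T := by
  intro g hg
  rw [mem_Cls] at hg ⊢
  exact fun l hl => hg l fun h' => hl (h h')

/-- **The lines.** Let a linear relation with nonzero coefficient at `j0` hold between few
embeddings. Then it holds between those in some coordinate line through `j0`. -/
theorem lines (hD : ∀ i, D i ≠ 0) (hsup : ⨆ i, F i = ⊤) {γ : Fin n → ℕ}
    (hγ : ∀ i (t : F i), Transcendental k t → γ i ≤ Module.finrank k⟮t⟯ (F i))
    (hφ : Function.Injective φ) {c : ι → Ω} (hc : c j0 ≠ 0)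
    (hr : ∀ i j, i ≠ j → Fintype.card ι + 3 ≤ γ i + γ j) :
    ∀ (m : ℕ) (S : Finset (Fin n)), S.card = m → Rel F D φ (Cls F φ j0 S) c S →
      ∃ i, Rel F D φ (Cls F φ j0 {i}) c {i} := by
  classical
  intro m
  induction m using Nat.strong_induction_on with
  | _ m ih =>
  intro S hS hR
  have hj0 : ∀ T, j0 ∈ Cls F φ j0 T := fun T => mem_Cls.2 fun l _ => rfl
  rcases Nat.lt_or_ge 1 S.card with h1 | h1
  swap
  · rcases Nat.lt_or_ge 0 S.card with h2 | h2
    · obtain ⟨i, rfl⟩ := Finset.card_eq_one.1 (le_antisymm h1 h2)
      exact ⟨i, hR⟩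
    · exfalso
      obtain rfl := Finset.card_eq_zero.1 (Nat.le_zero.1 h2)
      have h3 := hR (fun _ => 0) fun i hi => absurd hi (Finset.notMem_empty i)
      have h4 : Cls F φ j0 ∅ = {j0} := by
        ext g
        rw [Finset.mem_singleton]
        constructor
        · intro hg
          rw [mem_Cls] at hg
          apply hφ
          let C0 : IntermediateField k K :=
            { carrier := {z | φ g z = φ j0 z}
              mul_mem' := fun {a b} ha hb => by
                change φ g (a * b) = φ j0 (a * b)
                rw [map_mul, map_mul, show φ g a = φ j0 a from ha, show φ g b = φ j0 b from hb]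
              add_mem' := fun {a b} ha hb => by
                change φ g (a + b) = φ j0 (a + b)
                rw [map_add, map_add, show φ g a = φ j0 a from ha, show φ g b = φ j0 b from hb]
              algebraMap_mem' := fun c => by
                change φ g _ = φ j0 _
                rw [AlgHom.commutes, AlgHom.commutes]
              inv_mem' := fun a ha => by
                change φ g a⁻¹ = φ j0 a⁻¹
                rw [map_inv₀, map_inv₀, show φ g a = φ j0 a from ha] }
          have h5 : (⊤ : IntermediateField k K) ≤ C0 := by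
            rw [← hsup, iSup_le_iff]
            intro l z hz
            exact DFunLike.congr_fun (hg l (Finset.notMem_empty l)) ⟨z, hz⟩
          ext z
          exact h5 (show z ∈ (⊤ : IntermediateField k K) from trivial)
        · rintro rfl
          exact hj0 _
      rw [h4, Finset.sum_singleton, Finset.prod_empty, mul_one] at h3
      exact hc h3
  · obtain ⟨i, hi, j, hj, hij⟩ := Finset.one_lt_card.1 h1
    -- splitting
    have split : ∀ l ∈ S, ((Cls F φ j0 S).image (vl F φ l)).card < γ l →
        ∃ i, Rel F D φ (Cls F φ j0 {i}) c {i} := by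
      intro l hl hlt
      have hmem : vl F φ l j0 ∈ (Cls F φ j0 S).image (vl F φ l) :=
        Finset.mem_image_of_mem _ (hj0 S)
      obtain ⟨w, hw1, hw2, hw3⟩ := kill (hD l) (((Cls F φ j0 S).image (vl F φ l)).erase
        (vl F φ l j0)) (vl F φ l j0) (Finset.notMem_erase _ _) (fun t ht => by
          rw [Finset.card_erase_add_one hmem]
          exact lt_of_lt_of_le hlt (hγ l t ht))
      have h2 := hR.app hl w hw1
      have h3 : Rel F D φ (Cls F φ j0 (S.erase l)) c (S.erase l) := by
        refine h2.drop (Cls_mono (Finset.erase_subset _ _)) (fun g hg hg' => ?_) fun g hg => ?_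
        · have h4 : vl F φ l g ≠ vl F φ l j0 := by
            intro h
            apply hg'
            rw [mem_Cls] at hg ⊢
            intro l' hl'
            by_cases hll : l' = l
            · rw [hll, h]
            · exact hg l' fun h5 => hl' (Finset.mem_erase.2 ⟨hll, h5⟩)
          have h5 := hw2 (vl F φ l g) (Finset.mem_erase.2 ⟨h4, Finset.mem_image_of_mem _ hg⟩)
          change c g * (w.sum fun a t => t * vl F φ l g a) = 0
          rw [h5, mul_zero]
        · rw [mem_Cls] at hg
          have h4 := hg l (Finset.notMem_erase _ _)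
          change c g * (w.sum fun a t => t * vl F φ l g a) = c g
          rw [h4, hw3, mul_one]
      exact ih (S.erase l).card (by rw [← hS]; exact Finset.card_erase_lt_of_mem hl) _ rfl h3
    by_cases hA : ((Cls F φ j0 S).image (vl F φ i)).card < γ i
    · exact split i hi hA
    by_cases hB : ((Cls F φ j0 S).image (vl F φ j)).card < γ j
    · exact split j hj hB
    push Not at hA hB
    obtain ⟨G, hG⟩ : ∃ G, G = Cls F φ j0 S := ⟨_, rfl⟩
    rw [← hG] at hA hB hR
    have hj0G : j0 ∈ G := hG ▸ hj0 S
    obtain ⟨a, ha⟩ : ∃ a, a = vl F φ i := ⟨_, rfl⟩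
    obtain ⟨b, hb⟩ : ∃ b, b = vl F φ j := ⟨_, rfl⟩
    rw [← ha] at hA
    rw [← hb] at hB
    obtain ⟨P, hP⟩ : ∃ P, P = G.filter fun g => a g = a j0 ∧ b g ≠ b j0 := ⟨_, rfl⟩
    obtain ⟨Q, hQ⟩ : ∃ Q, Q = G.filter fun g => a g ≠ a j0 ∧ b g = b j0 := ⟨_, rfl⟩
    obtain ⟨R, hRd⟩ : ∃ R, R = G.filter fun g => a g ≠ a j0 ∧ b g ≠ b j0 := ⟨_, rfl⟩
    have hPQ : Disjoint P Q := by
      rw [Finset.disjoint_left]
      intro g h2 h3
      rw [hP, Finset.mem_filter] at h2
      rw [hQ, Finset.mem_filter] at h3
      exact h3.2.1 h2.2.1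
    have hPR : Disjoint P R := by
      rw [Finset.disjoint_left]
      intro g h2 h3
      rw [hP, Finset.mem_filter] at h2
      rw [hRd, Finset.mem_filter] at h3
      exact h3.2.1 h2.2.1
    have hQR : Disjoint Q R := by
      rw [Finset.disjoint_left]
      intro g h2 h3
      rw [hQ, Finset.mem_filter] at h2
      rw [hRd, Finset.mem_filter] at h3
      exact h3.2.2 h2.2.2
    have hcard : P.card + Q.card + R.card + 1 ≤ Fintype.card ι := by
      have h2 : (P ∪ Q ∪ R).card = P.card + Q.card + R.card := by
        rw [Finset.card_union_of_disjoint (Finset.disjoint_union_left.2 ⟨hPR, hQR⟩),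
          Finset.card_union_of_disjoint hPQ]
      have h3 : j0 ∉ P ∪ Q ∪ R := by
        rw [hP, hQ, hRd]
        simp
      have h4 : (insert j0 (P ∪ Q ∪ R)).card ≤ Fintype.card ι := Finset.card_le_univ _
      rw [Finset.card_insert_of_notMem h3, h2] at h4
      exact h4
    have hA' : γ i ≤ Q.card + R.card + 1 := by
      refine hA.trans ?_
      have h2 : G.image a ⊆ insert (a j0) ((Q ∪ R).image a) := by
        intro v hv
        obtain ⟨g, hg, rfl⟩ := Finset.mem_image.1 hv
        by_cases h3 : a g = a j0
        · rw [h3]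
          exact Finset.mem_insert_self _ _
        · refine Finset.mem_insert_of_mem (Finset.mem_image_of_mem _ ?_)
          rw [Finset.mem_union, hQ, hRd, Finset.mem_filter, Finset.mem_filter]
          by_cases h4 : b g = b j0
          · exact Or.inl ⟨hg, h3, h4⟩
          · exact Or.inr ⟨hg, h3, h4⟩
      have h3 := Finset.card_le_card h2
      have h4 := Finset.card_insert_le (a j0) ((Q ∪ R).image a)
      have h5 := Finset.card_image_le (s := Q ∪ R) (f := a)
      have h6 := Finset.card_union_le Q R
      omega
    have hB' : γ j ≤ P.card + R.card + 1 := by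
      refine hB.trans ?_
      have h2 : G.image b ⊆ insert (b j0) ((P ∪ R).image b) := by
        intro v hv
        obtain ⟨g, hg, rfl⟩ := Finset.mem_image.1 hv
        by_cases h3 : b g = b j0
        · rw [h3]
          exact Finset.mem_insert_self _ _
        · refine Finset.mem_insert_of_mem (Finset.mem_image_of_mem _ ?_)
          rw [Finset.mem_union, hP, hRd, Finset.mem_filter, Finset.mem_filter]
          by_cases h4 : a g = a j0
          · exact Or.inl ⟨hg, h4, h3⟩
          · exact Or.inr ⟨hg, h4, h3⟩
      have h3 := Finset.card_le_card h2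
      have h4 := Finset.card_insert_le (b j0) ((P ∪ R).image b)
      have h5 := Finset.card_image_le (s := P ∪ R) (f := b)
      have h6 := Finset.card_union_le P R
      omega
    have hrij := hr i j hij
    obtain ⟨X, hXR, hX⟩ := Finset.exists_subset_card_eq
      (s := R) (n := min R.card (γ i - 2 - Q.card)) (min_le_left _ _)
    have hkill : ∀ (l : Fin n) (T : Finset ι), (∀ g ∈ T, vl F φ l g ≠ vl F φ l j0) →
        T.card + 1 < γ l → ∃ w : F l →₀ Ω, (∀ a ∈ w.support, RegD (D l) a) ∧
          (∀ g ∈ T, (w.sum fun a t => t * φ g a) = 0) ∧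
          ∀ g, vl F φ l g = vl F φ l j0 → (w.sum fun a t => t * φ g a) = 1 := by
      intro l T hT hlt
      obtain ⟨w, hw1, hw2, hw3⟩ := kill (hD l) (T.image (vl F φ l)) (vl F φ l j0) (by
        intro h
        obtain ⟨g, hg, h2⟩ := Finset.mem_image.1 h
        exact hT g hg h2) (fun t ht => by
          have h2 := Finset.card_image_le (s := T) (f := vl F φ l)
          have h3 := hγ l t ht
          omega)
      refine ⟨w, hw1, fun g hg => hw2 (vl F φ l g) (Finset.mem_image_of_mem _ hg),
        fun g hg => ?_⟩
      change (w.sum fun a t => t * vl F φ l g a) = 1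
      rw [hg]
      exact hw3
    obtain ⟨w, hw1, hw2, hw3⟩ := hkill i (Q ∪ X) (fun g hg => by
        rw [Finset.mem_union] at hg
        rcases hg with hg | hg
        · rw [hQ, Finset.mem_filter, ha] at hg
          exact hg.2.1
        · have h2 := hXR hg
          rw [hRd, Finset.mem_filter, ha] at h2
          exact h2.2.1) (by
        have h2 := Finset.card_union_le Q X
        omega)
    obtain ⟨w', hw1', hw2', hw3'⟩ := hkill j (P ∪ (R \ X)) (fun g hg => by
        rw [Finset.mem_union] at hg
        rcases hg with hg | hg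
        · rw [hP, Finset.mem_filter, hb] at hg
          exact hg.2.2
        · have h2 := Finset.sdiff_subset hg
          rw [hRd, Finset.mem_filter, hb] at h2
          exact h2.2.2) (by
        have h2 := Finset.card_union_le P (R \ X)
        rw [Finset.card_sdiff_of_subset hXR] at h2
        omega)
    have hjS : j ∈ S.erase i := Finset.mem_erase.2 ⟨hij.symm, hj⟩
    have h2 := (hR.app hi w hw1).app hjS w' hw1'
    have h3 : Rel F D φ (Cls F φ j0 ((S.erase i).erase j)) c ((S.erase i).erase j) := by
      refine h2.drop (hG ▸ Cls_mono ((Finset.erase_subset _ _).trans (Finset.erase_subset _ _)))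
        (fun g hg hg' => ?_) fun g hg => ?_
      · by_cases h4 : g ∈ Q ∪ X
        · rw [hw2 g h4, mul_zero, zero_mul]
        by_cases h5 : g ∈ P ∪ (R \ X)
        · rw [hw2' g h5, mul_zero]
        exfalso
        apply hg'
        have h6 : a g = a j0 ∧ b g = b j0 := by
          rw [Finset.mem_union, not_or] at h4 h5
          rw [Finset.mem_sdiff] at h5
          rw [hP, hRd, Finset.mem_filter, Finset.mem_filter] at h5
          rw [hQ, Finset.mem_filter] at h4
          by_contra hcon
          by_cases h7 : a g = a j0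
          · exact h5.1 ⟨hg, h7, fun h8 => hcon ⟨h7, h8⟩⟩
          · by_cases h8 : b g = b j0
            · exact h4.1 ⟨hg, h7, h8⟩
            · exact h5.2 ⟨⟨hg, h7, h8⟩, h4.2⟩
        rw [hG] at hg
        rw [mem_Cls] at hg ⊢
        intro l hl
        by_cases hli : l = i
        · rw [hli, ← ha]
          exact h6.1
        · by_cases hlj : l = j
          · rw [hlj, ← hb]
            exact h6.2
          · exact hg l fun h7 => hl (Finset.mem_erase.2 ⟨hlj, Finset.mem_erase.2 ⟨hli, h7⟩⟩)
      · rw [mem_Cls] at hg
        rw [hw3 g (hg i fun h => Finset.notMem_erase _ _ (Finset.mem_of_mem_erase h)),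
          hw3' g (hg j (Finset.notMem_erase _ _)), mul_one, mul_one]
    exact ih ((S.erase i).erase j).card (by
      rw [← hS]
      exact (Finset.card_erase_lt_of_mem hjS).trans (Finset.card_erase_lt_of_mem hi)) _ rfl h3

end

end Pool.Agent.Helper11K9.MT
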